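import Pool.Agent.K7.H78.TK.Main

/-!
# A generalized Takagi function all of whose level sets have dimension zero

Let `T_v` be the class of the functions `f x = ∑ ω_n(x) / 2 ^ n φ(2 ^ n x)` on `[0, 1]`, where `φ` is the
distance to the nearest integer and `ω_n` takes the values `1` and `-1` and is constant on the intervals
`[j / 2 ^ n, (j + 1) / 2 ^ n)`.

**Theorem.** There is `f` in `T_v` such that every level set `{x : f x = y}` has Hausdorff dimension `0`. More
precisely, every level set is covered by at most `20 (m + 2) ^ 3 + 1` dyadic intervals of the length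
`2 ^ (-(2 m + 1))`, for all `m`; so also the upper box dimension of the level sets is `0`.

Proof. Let `g(i) = 2 ^ k f_k(i / 2 ^ k)`, where `f_k` is the `k`-th partial sum and `k = 2 m + 1`. The state of the
interval `i` is the pair `(a, w)` of the value `a` of `g` at its endpoint with even index (a multiple of four) and
the difference `w` of the values of `g` at its endpoints (an odd number with `|w| ≤ 2 m + 1`). The function takes
the value `y` on the interval only if `|2 ^ k y - a| ≤ 2 m + 2`, so it suffices to choose the signs in such a way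
that few intervals have the same state. We choose the signs of the next two levels as functions of `w mod 8` and
of the sign of `w` such that the state of one of the four intervals two levels below determines the state `(a, w)`
of the parent and, if `|w| > 1`, also which child it is (`child_inj`); for `|w| = 1` two of the four children
have the same state, which depends on one sign, and this sign alternates among the intervals with the same
state. So the largest number of intervals with the same state grows by at most one in each double step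
(`mult_step`), and it is at most `m + 2` (`G_mult`).
-/

set_option autoImplicit false

namespace Pool.Agent.Results.MP_141d59_an.ZeroDimensionalLevelSets

open Set

/-- the distance to the nearest integer -/
noncomputable def phi (x : ℝ) : ℝ := |x - round x|

/-- sign functions: `ω n` takes the values `1` and `-1` on `[0, 1]`, and it is constant on the intervals
`[j / 2 ^ n, (j + 1) / 2 ^ n)`, `j < 2 ^ n` -/
def IsSignSequence (ω : ℕ → ℝ → ℝ) : Prop :=
  ∀ n : ℕ, (∀ x ∈ Icc (0 : ℝ) 1, ω n x = 1 ∨ ω n x = -1) ∧
    ∀ j : ℕ, j < 2 ^ n → ∀ x ∈ Ico ((j : ℝ) / 2 ^ n) ((j + 1) / 2 ^ n),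
      ∀ x' ∈ Ico ((j : ℝ) / 2 ^ n) ((j + 1) / 2 ^ n), ω n x = ω n x'

/-- the generalized Takagi function with the signs `ω` -/
noncomputable def takagi (ω : ℕ → ℝ → ℝ) (x : ℝ) : ℝ := ∑' n : ℕ, ω n x / 2 ^ n * phi (2 ^ n * x)

/-- the level set -/
def level (ω : ℕ → ℝ → ℝ) (y : ℝ) : Set ℝ := {x ∈ Icc (0 : ℝ) 1 | takagi ω x = y}

/-- **There is a generalized Takagi function all of whose level sets have Hausdorff dimension zero**; all of them
are covered by at most `20 (m + 2) ^ 3 + 1` dyadic intervals of the length `2 ^ (-(2 m + 1))`. -/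
theorem result : ∃ ω : ℕ → ℝ → ℝ, IsSignSequence ω ∧ ∀ y : ℝ, dimH (level ω y) = 0 ∧
    ∀ m : ℕ, ∃ I : Finset ℕ, I.card ≤ 20 * (m + 2) ^ 3 + 1 ∧
      level ω y ⊆ ⋃ i ∈ I, Icc ((i : ℝ) / 2 ^ (2 * m + 1)) ((i + 1) / 2 ^ (2 * m + 1)) := by
  refine ⟨fun n x => (Pool.Agent.K7.H78.TK.sgn n ⌊2 ^ n * x⌋₊ : ℝ), ?_, fun y =>
    ⟨Pool.Agent.K7.H78.TK.dim_zero y, Pool.Agent.K7.H78.TK.cover y⟩⟩
  intro n
  refine ⟨fun x _ => ?_, fun j _ x hx x' hx' => ?_⟩
  · rcases Pool.Agent.K7.H78.TK.sgn_cases n ⌊2 ^ n * x⌋₊ with h | h
    · left
      simp [h]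
    · right
      simp [h]
  · have hfl : ∀ z ∈ Ico ((j : ℝ) / 2 ^ n) ((j + 1) / 2 ^ n), ⌊2 ^ n * z⌋₊ = j := by
      rintro z ⟨h1, h2⟩
      have h0 : (0 : ℝ) < 2 ^ n := by positivity
      rw [div_le_iff₀ h0] at h1
      rw [lt_div_iff₀ h0] at h2
      have hj : (0 : ℝ) ≤ j := Nat.cast_nonneg j
      rw [Nat.floor_eq_iff (by linarith)]
      constructor <;> linarith
    simp only [hfl x hx, hfl x' hx']

end Pool.Agent.Results.MP_141d59_an.ZeroDimensionalLevelSets
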